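import Mathlib

set_option autoImplicit false

open Set Relation

namespace Pool.Agent.H.MP_a721b7_an

variable {X : Type*} {R : X → X → Prop}

def St (R : X → X → Prop) (p q : X × X) : Prop :=
  ∃ x, (p.2 = q.2 ∧ R x p.1 ∧ R x q.1 ∧ ¬ R x p.2) ∨ (p.1 = q.1 ∧ R x p.2 ∧ R x q.2 ∧ ¬ R x p.1)

theorem St.symm {p q : X × X} (h : St R p q) : St R q p := by
  obtain ⟨x, ⟨h1, h2, h3, h4⟩ | ⟨h1, h2, h3, h4⟩⟩ := h
  · exact ⟨x, .inl ⟨h1.symm, h3, h2, h1 ▸ h4⟩⟩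
  exact ⟨x, .inr ⟨h1.symm, h3, h2, h1 ▸ h4⟩⟩

theorem St.swap {p q : X × X} (h : St R p q) : St R p.swap q.swap := by
  obtain ⟨x, h | h⟩ := h
  · exact ⟨x, .inr h⟩
  exact ⟨x, .inl h⟩

abbrev E (R : X → X → Prop) := ReflTransGen (St R)

theorem E.symm {p q : X × X} (h : E R p q) : E R q p := by
  induction h with
  | refl => exact .refl
  | tail _ h ih => exact .head h.symm ih

theorem E.swap {p q : X × X} (h : E R p q) : E R p.swap q.swap := by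
  induction h with
  | refl => exact .refl
  | tail _ h ih => exact .tail ih h.swap

theorem tri {a b c : X} (hab : a ≠ b) (hac : a ≠ c) (h1 : ¬ E R (b, c) (a, c))
    (h2 : ¬ E R (b, c) (b, a)) {q : X × X} (h : E R (b, c) q) :
    E R (a, b) (a, q.1) ∧ E R (a, c) (a, q.2) ∧ a ≠ q.1 ∧ a ≠ q.2 := by
  induction h with
  | refl => exact ⟨.refl, .refl, hab, hac⟩
  | @tail p q hp h ih =>
    obtain ⟨p1, p2⟩ := p
    obtain ⟨q1, q2⟩ := q
    obtain ⟨i1, i2, i3, i4⟩ := ih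
    obtain ⟨x, ⟨h3, h4, h5, h6⟩ | ⟨h3, h4, h5, h6⟩⟩ := h
    · obtain rfl : p2 = q2 := h3
      have ha : ¬ R x a := fun ha =>
        h1 ((hp.tail (c := (a, p2)) ⟨x, .inl ⟨rfl, h4, ha, h6⟩⟩).trans (E.symm i2))
      exact ⟨i1.tail ⟨x, .inr ⟨rfl, h4, h5, ha⟩⟩, i2, fun h => ha (h ▸ h5), i4⟩
    obtain rfl : p1 = q1 := h3
    have ha : ¬ R x a := fun ha =>
      h2 ((hp.tail (c := (p1, a)) ⟨x, .inr ⟨rfl, h4, ha, h6⟩⟩).trans (E.symm (E.swap i1)))
    exact ⟨i1, i2.tail ⟨x, .inr ⟨rfl, h4, h5, ha⟩⟩, i3, fun h => ha (h ▸ h5)⟩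

def src (R : X → X → Prop) (p : X × X) : Set X := {x | ∃ y, E R p (x, y)}

theorem src_tri {a b c : X} (hab : a ≠ b) (hac : a ≠ c) (hbc : b ≠ c)
    (h1 : ¬ E R (b, c) (a, c)) (h2 : ¬ E R (b, c) (b, a)) (h3 : ¬ E R (a, b) (a, c))
    (h4 : ¬ E R (a, b) (c, b)) : src R (b, c) = src R (b, a) ∧ a ∉ src R (b, c) := by
  refine ⟨Subset.antisymm ?_ ?_, ?_⟩
  · rintro x ⟨y, h⟩
    exact ⟨a, E.swap (tri hab hac h1 h2 h).1⟩
  · rintro x ⟨y, h⟩
    exact ⟨c, E.swap (tri hac.symm hbc.symm h4 h3 (E.swap h)).2.1⟩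
  rintro ⟨y, h⟩
  exact (tri hab hac h1 h2 h).2.2.1 rfl

theorem ex_ord (H : ∀ a b, a ≠ b → ¬ E R (a, b) (b, a)) : ∃ lt : X → X → Prop,
    (∀ a, ¬ lt a a) ∧ (∀ a b, a ≠ b → lt a b ∨ lt b a) ∧ (∀ a b c, lt a b → lt b c → lt a c) ∧
      ∀ x a b c, R x a → R x c → ¬ R x b → lt a b → ¬ lt b c := by
  let k : X × X → Cardinal ×ₗ Cardinal := fun p =>
    toLex (embeddingToCardinal (src R p), embeddingToCardinal {q | E R p q})
  have hk : ∀ p q, E R p q → k p = k q := fun p q h => by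
    have : ∀ r, E R p r ↔ E R q r := fun r => ⟨(E.symm h).trans, h.trans⟩
    simp only [k, src, this]
  have hl : ∀ p q, E R p q → k p < k p.swap → k q < k q.swap := fun p q h h' => by
    rwa [← hk _ _ h, ← hk _ _ (E.swap h)]
  have tot : ∀ a b, a ≠ b → k (a, b) < k (b, a) ∨ k (b, a) < k (a, b) := fun a b h =>
    lt_or_gt_of_ne fun h' => H a b h (by
      have : {q | E R (a, b) q} = {q | E R (b, a) q} :=
        embeddingToCardinal.injective (Prod.ext_iff.1 (toLex.injective h')).2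
      exact this.ge (show E R (b, a) (b, a) from .refl))
  refine ⟨fun a b => k (a, b) < k (b, a), fun a => lt_irrefl _, tot, fun a b c h1 h2 => ?_,
    fun x a b c h1 h2 h3 h4 => ?_⟩
  · have hab : a ≠ b := by rintro rfl; exact lt_irrefl _ h1
    have hbc : b ≠ c := by rintro rfl; exact lt_irrefl _ h2
    have hac : a ≠ c := by rintro rfl; exact lt_asymm h1 h2
    refine (tot a c hac).resolve_right fun h3 => ?_
    have n : ∀ p q : X × X, k p < k p.swap → k q < k q.swap → ¬ E R p q.swap := fun p q hp hq h =>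
      lt_asymm hq (hl _ _ h hp)
    have s : ∀ a b c : X, a ≠ b → a ≠ c → b ≠ c → k (a, b) < k (b, a) → k (b, c) < k (c, b) →
        k (c, a) < k (a, c) → src R (b, c) = src R (b, a) ∧ a ∉ src R (b, c) :=
      fun a b c hab hac hbc h1 h2 h3 => src_tri hab hac hbc (n _ (c, a) h2 h3) (n _ (a, b) h2 h1)
        (n _ (c, a) h1 h3) (n _ (b, c) h1 h2)
    obtain ⟨s1, s2⟩ := s a b c hab hac hbc h1 h2 h3
    obtain ⟨s3, -⟩ := s b c a hbc hab.symm hac.symm h2 h3 h1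
    obtain ⟨s4, -⟩ := s c a b hac.symm hbc.symm hab h3 h1 h2
    have t : ∀ p q, k p < k q → (k p).1 ≤ (k q).1 := fun p q h => Prod.Lex.monotone_fst _ _ h.le
    have t1 := t _ _ h1
    have t2 := t _ _ h2
    have t3 := t _ _ h3
    change embeddingToCardinal (src R _) ≤ embeddingToCardinal (src R _) at t1 t2 t3
    rw [← s1] at t1
    rw [← s3] at t2
    rw [← s4] at t3
    exact s2 (embeddingToCardinal.injective (le_antisymm t1 (t2.trans t3)) ▸ ⟨b, .refl⟩)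
  exact lt_asymm (hl (a, b) (c, b) (.single ⟨x, .inl ⟨rfl, h1, h2, h3⟩⟩) h4)

theorem cof (S : Set X) (φ : X → ℝ) : ∃ C ⊆ S, C.Countable ∧ ∀ x ∈ S, ∃ c ∈ C, φ x ≤ φ c := by
  by_cases h : ∃ m ∈ S, ∀ x ∈ S, φ x ≤ φ m
  · obtain ⟨m, hm, h⟩ := h
    exact ⟨{m}, by simpa, countable_singleton m, fun x hx => ⟨m, rfl, h x hx⟩⟩
  push Not at h
  have : ∀ r : {r : ℚ // ∃ x ∈ S, r < φ x}, ∃ x ∈ S, r.1 < φ x := fun r => r.2
  choose c h1 h2 using this
  refine ⟨range c, range_subset_iff.2 h1, countable_range c, fun x hx => ?_⟩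
  obtain ⟨y, hy, h3⟩ := h x hx
  obtain ⟨r, h4, h5⟩ := exists_rat_btwn h3
  exact ⟨_, ⟨⟨r, y, hy, h5⟩, rfl⟩, (h4.trans (h2 ⟨r, y, hy, h5⟩)).le⟩

theorem nec1 {f g h : X → ℝ} (H : ∀ x y, R x y ↔ f x < g y ∧ g y < h x) {p q : X × X}
    (hp : TransGen (St R) p q) : (g p.1 < g p.2 ↔ g q.1 < g q.2) ∧ g p.1 ≠ g p.2 := by
  have one : ∀ p q, St R p q → (g p.1 < g p.2 ↔ g q.1 < g q.2) ∧ g p.1 ≠ g p.2 := by
    rintro p q ⟨x, ⟨h1, h2, h3, h4⟩ | ⟨h1, h2, h3, h4⟩⟩ <;> rw [← h1] <;>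
      simp only [H, not_and_or, not_lt] at h2 h3 h4 <;> rcases h4 with h4 | h4 <;>
      refine ⟨⟨fun _ => ?_, fun _ => ?_⟩, fun _ => ?_⟩ <;> linarith [h2.1, h2.2, h3.1, h3.2]
  induction hp with
  | single h => exact one _ _ h
  | tail _ h ih => exact ⟨ih.1.trans (one _ _ h).1, ih.2⟩

theorem nec2 {f g h : X → ℝ} (H : ∀ x y, R x y ↔ f x < g y ∧ g y < h x) :
    ∃ C : Set X, C.Countable ∧ ∀ x y, R x y → ∃ u ∈ C, ∃ v ∈ C, R u y ∧ R v y ∧
      ∀ z, R u z → R v z → R x z := by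
  choose C h1 h2 h3 using fun (p : ℚ × ℚ) (φ : X → ℝ) => cof {x | f x < p.1 ∧ p.2 < h x} φ
  refine ⟨⋃ p, C p f ∪ C p (-h), countable_iUnion fun p => (h2 _ _).union (h2 _ _),
    fun x y hxy => ?_⟩
  obtain ⟨p, a1, a2⟩ := exists_rat_btwn ((H x y).1 hxy).1
  obtain ⟨q, a3, a4⟩ := exists_rat_btwn ((H x y).1 hxy).2
  obtain ⟨u, hu, b1⟩ := h3 (p, q) f x ⟨a1, a4⟩
  obtain ⟨v, hv, b2⟩ := h3 (p, q) (-h) x ⟨a1, a4⟩
  have c1 := h1 _ _ hu
  have c2 := h1 _ _ hv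
  refine ⟨u, mem_iUnion.2 ⟨_, .inl hu⟩, v, mem_iUnion.2 ⟨_, .inr hv⟩,
    (H _ _).2 ⟨c1.1.trans a2, a3.trans c1.2⟩, (H _ _).2 ⟨c2.1.trans a2, a3.trans c2.2⟩,
    fun z d1 d2 => (H _ _).2 ⟨b1.trans_lt ((H _ _).1 d1).1, ((H _ _).1 d2).2.trans_le ?_⟩⟩
  simpa using b2

theorem suff [Nonempty X] (H : ∀ a b, a ≠ b → ¬ E R (a, b) (b, a)) {C : Set X} (hC : C.Countable)
    (H2 : ∀ x y, R x y → ∃ u ∈ C, ∃ v ∈ C, R u y ∧ R v y ∧ ∀ z, R u z → R v z → R x z) :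
    ∃ f g h : X → ℝ, ∀ x y, R x y ↔ f x < g y ∧ g y < h x := by
  classical
  obtain ⟨lt, irr, tot, tr, cv⟩ := ex_ord H
  obtain ⟨c, hc⟩ := (hC.insert (Classical.arbitrary X)).exists_eq_range (insert_nonempty _ _)
  let τ : X → X → ℝ := fun u y =>
    (if ∃ a, R u a ∧ ¬ lt y a then 1 else 0) + if ∀ a, R u a → lt a y then 1 else 0
  have t0 : ∀ u y, 0 ≤ τ u y ∧ τ u y ≤ 2 := fun u y => by
    simp only [τ]; split_ifs <;> norm_num
  have m1 : ∀ u y z, lt y z → (∃ a, R u a ∧ ¬ lt y a) → ∃ a, R u a ∧ ¬ lt z a :=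
    fun u y z h ⟨a, h1, h2⟩ => ⟨a, h1, fun h3 => h2 (tr _ _ _ h h3)⟩
  have m2 : ∀ u y z, lt y z → (∀ a, R u a → lt a y) → ∀ a, R u a → lt a z :=
    fun u y z h h1 a h2 => tr _ _ _ (h1 a h2) h
  have ind : ∀ P Q : Prop, (P → Q) → (if P then 1 else 0 : ℝ) ≤ if Q then 1 else 0 :=
    fun P Q h => by split_ifs <;> first | (norm_num; done) | (exfalso; tauto)
  have t1 : ∀ u y z, lt y z → τ u y ≤ τ u z := fun u y z h =>
    add_le_add (by convert ind _ _ (m1 u y z h)) (by convert ind _ _ (m2 u y z h))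
  have t2 : ∀ u y z, lt y z → ¬ (R u y ↔ R u z) → τ u y + 1 ≤ τ u z := fun u y z h hn => by
    by_cases hy : R u y
    · have hz : ¬ R u z := by tauto
      have a1 : ¬ ∀ a, R u a → lt a y := fun h => irr _ (h y hy)
      have a2 : ∀ a, R u a → lt a z := fun a ha =>
        (tot a z (by rintro rfl; exact hz ha)).resolve_right (cv u y z a hy ha hz h)
      simp only [τ, if_neg a1, if_pos a2, add_zero, add_le_add_iff_right]
      convert ind _ _ (m1 u y z h)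
    have hz : R u z := by tauto
    have a1 : ¬ ∃ a, R u a ∧ ¬ lt y a := fun ⟨a, ha, h1⟩ =>
      cv u a y z ha hz hy ((tot a y (by rintro rfl; exact hy ha)).resolve_right h1) h
    have a2 : ∃ a, R u a ∧ ¬ lt z a := ⟨z, hz, irr z⟩
    simp only [τ, if_neg a1, if_pos a2, zero_add, add_comm (1 : ℝ), add_le_add_iff_right]
    convert ind _ _ (m2 u y z h)
  let g : X → ℝ := fun y => ∑' n, (1 / 2) ^ n * τ (c n) y
  have sm : ∀ y, Summable fun n => (1 / 2 : ℝ) ^ n * τ (c n) y := fun y =>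
    .of_nonneg_of_le (fun n => mul_nonneg (by positivity) (t0 _ _).1)
      (fun n => mul_le_mul_of_nonneg_left (t0 _ _).2 (by positivity))
      (summable_geometric_two.mul_right 2)
  have g0 : ∀ y, 0 ≤ g y := fun y =>
    tsum_nonneg fun n => mul_nonneg (by positivity) (t0 _ _).1
  have g1 : ∀ y, g y ≤ 4 := fun y => by
    have := (sm y).tsum_le_tsum (fun n => mul_le_mul_of_nonneg_left (t0 (c n) y).2 (by positivity))
      (summable_geometric_two.mul_right 2)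
    rw [tsum_mul_right, tsum_geometric_two] at this
    linarith
  have g2 : ∀ n y z, lt y z → ¬ (R (c n) y ↔ R (c n) z) → g y + (1 / 2) ^ n ≤ g z :=
    fun n y z h hn => by
      have := ((sm z).sub (sm y)).le_tsum n fun m _ =>
        sub_nonneg.2 (mul_le_mul_of_nonneg_left (t1 _ _ _ h) (by positivity))
      rw [(sm z).tsum_sub (sm y)] at this
      have h2 := mul_le_mul_of_nonneg_left (t2 _ _ _ h hn) (by positivity : (0 : ℝ) ≤ (1 / 2) ^ n)
      linarith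
  have g3 : ∀ x y, R x y → ∃ δ > 0, ∀ z, ¬ R x z →
      (lt z y → g z + δ ≤ g y) ∧ (lt y z → g y + δ ≤ g z) := fun x y h => by
    obtain ⟨u, hu, v, hv, h1, h2, h3⟩ := H2 x y h
    obtain ⟨n, rfl⟩ : u ∈ range c := hc ▸ mem_insert_of_mem _ hu
    obtain ⟨m, rfl⟩ : v ∈ range c := hc ▸ mem_insert_of_mem _ hv
    refine ⟨min ((1 / 2) ^ n) ((1 / 2) ^ m), by positivity, fun z hz => ?_⟩
    have := min_le_left ((1 / 2 : ℝ) ^ n) ((1 / 2) ^ m)
    have := min_le_right ((1 / 2 : ℝ) ^ n) ((1 / 2) ^ m)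
    by_cases h4 : R (c n) z
    · have h5 : ¬ R (c m) z := fun h5 => hz (h3 z h4 h5)
      exact ⟨fun h => by linarith [g2 m _ _ h (by tauto)],
        fun h => by linarith [g2 m _ _ h (by tauto)]⟩
    exact ⟨fun h => by linarith [g2 n _ _ h (by tauto)],
      fun h => by linarith [g2 n _ _ h (by tauto)]⟩
  refine ⟨fun x => sSup (insert (-1) (g '' {z | ∀ y, R x y → lt z y})), g,
    fun x => sInf (insert 5 (g '' {z | ∀ y, R x y → lt y z})), fun x y => ⟨fun h => ?_, ?_⟩⟩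
  · obtain ⟨δ, h0, h1⟩ := g3 x y h
    constructor
    · refine lt_of_le_of_lt (csSup_le (insert_nonempty _ _) (a := max (-1) (g y - δ)) ?_)
        (max_lt (by linarith [g0 y]) (by linarith))
      rintro _ (rfl | ⟨z, hz, rfl⟩)
      · exact le_max_left _ _
      exact le_max_of_le_right (by linarith [(h1 z fun h => irr _ (hz z h)).1 (hz y h)])
    refine lt_of_lt_of_le (lt_min (by linarith [g1 y]) (by linarith))
      (le_csInf (insert_nonempty _ _) (a := min 5 (g y + δ)) ?_)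
    rintro _ (rfl | ⟨z, hz, rfl⟩)
    · exact min_le_left _ _
    exact min_le_of_right_le ((h1 z fun h => irr _ (hz z h)).2 (hz y h))
  rintro ⟨h1, h2⟩
  by_contra hy
  have a1 : ¬ ∀ z, R x z → lt y z := fun h => h1.not_ge
    (le_csSup ⟨4, by rintro _ (rfl | ⟨z, -, rfl⟩); exacts [by norm_num, g1 z]⟩ (.inr ⟨y, h, rfl⟩))
  have a2 : ¬ ∀ z, R x z → lt z y := fun h => h2.not_ge
    (csInf_le ⟨0, by rintro _ (rfl | ⟨z, -, rfl⟩); exacts [by norm_num, g0 z]⟩ (.inr ⟨y, h, rfl⟩))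
  push Not at a1 a2
  obtain ⟨a, ha, a1⟩ := a1
  obtain ⟨b, hb, a2⟩ := a2
  exact cv x a y b ha hb hy ((tot a y (by rintro rfl; exact hy ha)).resolve_right a1)
    ((tot y b (by rintro rfl; exact hy hb)).resolve_right a2)

end Pool.Agent.H.MP_a721b7_an
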